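import Pool.Agent.W719.BS.Stubs

set_option autoImplicit false

namespace Pool.Agent.W360.BS

open Filter Topology MeasureTheory Pool.Agent.W719.BS

/-- the integral of a function of the floor is a sum over the integers -/
theorem integral_floor {E : Type} [NormedAddCommGroup E] [NormedSpace ℝ E] [CompleteSpace E]
    (h : ℤ → E) (hi : Integrable (fun u : ℝ => h ⌊u⌋)) :
    ∫ u : ℝ, h ⌊u⌋ = ∑' m : ℤ, h m := by
  have hU : (⋃ n : ℤ, Set.Ico (n : ℝ) (n + 1)) = Set.univ := iUnion_Ico_intCast ℝ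
  have hs := hasSum_integral_iUnion (μ := volume) (f := fun u : ℝ => h ⌊u⌋)
    (s := fun n : ℤ => Set.Ico (n : ℝ) (n + 1)) (fun n => measurableSet_Ico)
    (Set.pairwise_disjoint_Ico_intCast ℝ) (by rw [hU]; exact hi.integrableOn)
  rw [hU, setIntegral_univ] at hs
  rw [← hs.tsum_eq]
  refine tsum_congr fun m => ?_
  have : ∫ u in Set.Ico (m : ℝ) (m + 1), h ⌊u⌋ = ∫ u in Set.Ico (m : ℝ) (m + 1), h m := by
    refine setIntegral_congr_fun measurableSet_Ico fun u hu => ?_
    have : ⌊u⌋ = m := by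
      rw [Int.floor_eq_iff]; exact ⟨hu.1, hu.2⟩
    simp only [this]
  rw [this, setIntegral_const]
  simp

theorem sSUM : S_SUM := by
  intro E _ _ _ f φ a C κ hκ hφ hb ht
  -- the step function
  set g : ℕ → ℝ → E := fun N t => f N ⌊a * N + t * √N⌋ with hg
  have hm : ∀ N, AEStronglyMeasurable (g N) volume := by
    intro N
    have h1 : StronglyMeasurable (f N) := StronglyMeasurable.of_discrete
    have h2 : Measurable (fun t : ℝ => ⌊a * N + t * √N⌋) :=
      Int.measurable_floor.comp (by fun_prop)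
    exact (h1.comp_measurable h2).aestronglyMeasurable
  have key : ∀ N : ℕ, 1 ≤ N → ∀ t : ℝ,
      |((⌊a * N + t * √N⌋ : ℤ) - a * N) / √N - t| ≤ 1 / √N := by
    intro N hN t
    have hN' : (0 : ℝ) < √N := Real.sqrt_pos.mpr (by exact_mod_cast hN)
    have h1 := Int.floor_le (a * N + t * √N)
    have h2 := Int.lt_floor_add_one (a * N + t * √N)
    have e : ((⌊a * N + t * √N⌋ : ℤ) - a * N) / √N - t
        = ((⌊a * N + t * √N⌋ : ℤ) - (a * N + t * √N)) / √N := by
      field_simp
      ring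
    rw [e, abs_div, abs_of_pos hN']
    gcongr
    rw [abs_le]
    constructor <;> linarith
  have hdom : ∀ᶠ N : ℕ in atTop, ∀ᵐ t : ℝ,
      ‖g N t‖ ≤ |C| * Real.exp κ * Real.exp (-(κ / 2) * t ^ 2) := by
    filter_upwards [hb, eventually_ge_atTop 1] with N hN hN1
    refine Eventually.of_forall fun t => ?_
    have hN0 : (0 : ℝ) < N := by exact_mod_cast hN1
    have hN' : (0 : ℝ) < √N := Real.sqrt_pos.mpr hN0
    have hsq : √(N : ℝ) ^ 2 = N := Real.sq_sqrt hN0.le
    set m := ⌊a * N + t * √N⌋ with hm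
    set s := ((m : ℝ) - a * N) / √N with hs
    have h1 : |s - t| ≤ 1 := by
      refine (key N hN1 t).trans ?_
      rw [div_le_one hN']
      rw [Real.one_le_sqrt]
      exact_mod_cast hN1
    have h2 : ((m : ℝ) - a * N) ^ 2 / N = s ^ 2 := by
      rw [hs, div_pow, hsq]
    have h3 : t ^ 2 / 2 - 1 ≤ s ^ 2 := by
      have := abs_le.mp h1
      nlinarith [sq_nonneg (2 * s - t), sq_nonneg (s + (s - t)), mul_self_le_mul_self (abs_nonneg (s - t)) h1,
        abs_mul_abs_self (s - t)]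
    calc ‖g N t‖ ≤ C * Real.exp (-κ * (((m : ℝ) - a * N) ^ 2 / N)) := hN m
      _ ≤ |C| * Real.exp (-κ * (((m : ℝ) - a * N) ^ 2 / N)) := by
        gcongr; exact le_abs_self C
      _ ≤ |C| * (Real.exp κ * Real.exp (-(κ / 2) * t ^ 2)) := by
        rw [h2, ← Real.exp_add]
        gcongr
        nlinarith
      _ = _ := by ring
  have hint : Integrable (fun t : ℝ => |C| * Real.exp κ * Real.exp (-(κ / 2) * t ^ 2)) :=
    (integrable_exp_neg_mul_sq (by positivity)).const_mul _
  have hsq : Tendsto (fun N : ℕ => 1 / √(N : ℝ)) atTop (𝓝 0) := by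
    simp only [one_div]
    exact (Real.tendsto_sqrt_atTop.comp tendsto_natCast_atTop_atTop).inv_tendsto_atTop
  have hlim : ∀ᵐ t : ℝ, Tendsto (fun N => g N t) atTop (𝓝 (φ t)) := by
    refine Eventually.of_forall fun t => ?_
    refine ht t (fun N => ⌊a * N + t * √N⌋) ?_
    rw [tendsto_iff_norm_sub_tendsto_zero]
    refine squeeze_zero' (Eventually.of_forall fun N => norm_nonneg _) ?_ hsq
    filter_upwards [eventually_ge_atTop 1] with N hN
    rw [Real.norm_eq_abs]
    exact key N hN t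
  have hT := tendsto_integral_filter_of_dominated_convergence
    (fun t : ℝ => |C| * Real.exp κ * Real.exp (-(κ / 2) * t ^ 2))
    (Eventually.of_forall hm) hdom hint hlim
  refine hT.congr' ?_
  filter_upwards [hdom, eventually_ge_atTop 1] with N hN hN1
  have hN0 : (0 : ℝ) < N := by exact_mod_cast hN1
  have hN' : (0 : ℝ) < √N := Real.sqrt_pos.mpr hN0
  have hgi : Integrable (g N) := hint.mono' (hm N) hN
  have e1 : ∀ t : ℝ, g N t = (fun u : ℝ => f N ⌊a * N + u⌋) (t * √N) := fun t => rfl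
  have e2 : ∫ t, g N t = |(√N : ℝ)⁻¹| • ∫ u, f N ⌊a * N + u⌋ :=
    Measure.integral_comp_mul_right (fun u : ℝ => f N ⌊a * N + u⌋) (√N)
  have hgi2 : Integrable (fun u : ℝ => f N ⌊a * N + u⌋) :=
    (integrable_comp_mul_right_iff (fun u : ℝ => f N ⌊a * N + u⌋) hN'.ne').mp hgi
  have hgi3 : Integrable (fun u : ℝ => f N ⌊u⌋) := by
    have := hgi2.comp_add_left (-(a * N))
    simpa using this
  have e3 : ∫ u, f N ⌊a * N + u⌋ = ∫ u : ℝ, f N ⌊u⌋ :=
    integral_add_left_eq_self (fun u : ℝ => f N ⌊u⌋) (a * N)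
  rw [e2, e3, integral_floor _ hgi3, abs_of_pos (inv_pos.mpr hN'), one_div]

end Pool.Agent.W360.BS
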